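import Pool.Agent.Work.MP_f4aefe_co.Order
import Pool.Agent.Work.MP_f4aefe_co.Excess
import Pool.Agent.Work.MP_f4aefe_co.Cross
import Pool.Agent.Work.MP_f4aefe_co.Lower

/-!
# The diameter of the Hurwitz graph is n^2/2 + O(n^(3/2))

We prove that the graph of reduced T-words for the standard n-cycle, with the Hurwitz moves
as edges, is connected and its diameter lies between binom(n-1,2) and
binom(n-1,2) + 112 n^(3/2).
-/

namespace Pool.Agent.Results.MP_f4aefe_co.DiamAsymptotic

open HurwitzDiam Finset Equiv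

/-- Reduced T-words for the standard n-cycle: lists of n-1 transpositions of `Fin n` whose
product is the cycle `i ↦ i+1` modulo n. -/
def RedWord (n : ℕ) : Type :=
  {w : List (Equiv.Perm (Fin n)) // w.length = n - 1 ∧ (∀ t ∈ w, t.IsSwap) ∧ w.prod = finRotate n}

/-- `w'` arises from `w` by replacing two consecutive letters `s, t` by `s*t*s, s` or by
`t, t*s*t`. -/
def HurwitzMove {n : ℕ} (w w' : List (Equiv.Perm (Fin n))) : Prop :=
  ∃ (u v : List (Equiv.Perm (Fin n))) (s t : Equiv.Perm (Fin n)), w = u ++ s :: t :: v ∧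
    (w' = u ++ (s * t * s) :: s :: v ∨ w' = u ++ t :: (t * s * t) :: v)

/-- The Hurwitz graph G_T(n). -/
def hurwitzGraph (n : ℕ) : SimpleGraph (RedWord n) where
  Adj w w' := w ≠ w' ∧ (HurwitzMove w.1 w'.1 ∨ HurwitzMove w'.1 w.1)
  symm := ⟨fun _ _ h => ⟨h.1.symm, h.2.symm⟩⟩
  loopless := ⟨fun _ h => h.1 rfl⟩

lemma redWord_isTree {m : ℕ} (w : RedWord (m + 1)) : IsTree w.1 m := by
  obtain ⟨h1, h2, h3⟩ := w.2
  refine isTree_of_prod (by simpa using h1) ?_ h3
  intro t ht
  obtain ⟨a, b, hab, h⟩ := h2 t ht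
  exact ⟨a, b, hab, h⟩

lemma move_prod {n : ℕ} {w w' : List (Equiv.Perm (Fin n))} (h : Move w w')
    (hsw : ∀ t ∈ w, ∃ a b, a ≠ b ∧ t = swap a b) : w'.prod = w.prod := by
  obtain ⟨u, v, s, t, rfl, h | h⟩ := h
  · obtain ⟨a, b, -, hs⟩ := hsw s (by simp)
    have hs1 : s * s = 1 := by rw [hs]; exact swap_sq a b
    rw [h]
    simp only [List.prod_append, List.prod_cons]
    have : s * t * s * (s * v.prod) = s * (t * v.prod) := by
      calc s * t * s * (s * v.prod) = s * t * (s * s) * v.prod := by group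
        _ = s * (t * v.prod) := by rw [hs1]; group
    rw [this]
  · obtain ⟨a, b, -, ht⟩ := hsw t (by simp)
    have ht1 : t * t = 1 := by rw [ht]; exact swap_sq a b
    rw [h]
    simp only [List.prod_append, List.prod_cons]
    have : t * (t * s * t * v.prod) = s * (t * v.prod) := by
      calc t * (t * s * t * v.prod) = (t * t) * s * t * v.prod := by group
        _ = s * (t * v.prod) := by rw [ht1]; group
    rw [this]

/-- routing: every word is within its number of inversions of a word without inversions -/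
lemma route {m : ℕ} {pos : Fin (m + 1) → ℕ} (hpos : Function.Injective pos) :
    ∀ (N : ℕ) (x : RedWord (m + 1)), (Inv x.1 pos).card = N →
      ∃ z : RedWord (m + 1), Inv z.1 pos = ∅ ∧ (hurwitzGraph (m + 1)).edist x z ≤ N := by
  intro N
  induction N using Nat.strong_induction_on with
  | _ N ih =>
  intro x hx
  rcases (Inv x.1 pos).eq_empty_or_nonempty with h | h
  · refine ⟨x, h, ?_⟩
    rw [SimpleGraph.edist_self]
    exact bot_le
  · obtain ⟨l', hmv, htr, hlt⟩ := descent_step (redWord_isTree x) (by simp) hpos h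
    have hpr : l'.prod = finRotate (m + 1) := by
      rw [move_prod hmv (redWord_isTree x).swp]
      exact x.2.2.2
    let x' : RedWord (m + 1) := ⟨l', by rw [htr.len]; simp, fun t ht => by
      obtain ⟨a, b, hab, h⟩ := htr.swp t ht
      exact ⟨a, b, hab, h⟩, hpr⟩
    have hadj : (hurwitzGraph (m + 1)).Adj x x' := by
      refine ⟨?_, Or.inl hmv⟩
      intro h
      have h2 : (Inv x.1 pos).card = (Inv x'.1 pos).card := by rw [← h]
      exact absurd h2 (by simp only [x']; omega)
    obtain ⟨z, hz, hd⟩ := ih (Inv l' pos).card (by omega) x' rfl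
    refine ⟨z, hz, ?_⟩
    have h1 : (hurwitzGraph (m + 1)).edist x x' = 1 := SimpleGraph.edist_eq_one_iff_adj.2 hadj
    calc (hurwitzGraph (m + 1)).edist x z
        ≤ (hurwitzGraph (m + 1)).edist x x' + (hurwitzGraph (m + 1)).edist x' z :=
          SimpleGraph.edist_triangle
      _ ≤ 1 + ((Inv l' pos).card : ℕ∞) := by rw [h1]; gcongr
      _ ≤ N := by
        have h3 : 1 + (Inv l' pos).card ≤ N := by omega
        exact_mod_cast h3

/-- distance is at most the sum of the inversion numbers, for every order of the points -/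
lemma edist_le {m : ℕ} {pos : Fin (m + 1) → ℕ} (hpos : Function.Injective pos)
    (x y : RedWord (m + 1)) :
    (hurwitzGraph (m + 1)).edist x y ≤ ((Inv x.1 pos).card + (Inv y.1 pos).card : ℕ) := by
  obtain ⟨z, hz, hxz⟩ := route hpos _ x rfl
  obtain ⟨z', hz', hyz⟩ := route hpos _ y rfl
  have hzz : z = z' := by
    apply Subtype.ext
    refine word_unique (redWord_isTree z) (redWord_isTree z') (by simp) hpos ?_ hz hz'
    rw [z.2.2.2, z'.2.2.2]
  subst hzz
  calc (hurwitzGraph (m + 1)).edist x y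
      ≤ (hurwitzGraph (m + 1)).edist x z + (hurwitzGraph (m + 1)).edist z y :=
        SimpleGraph.edist_triangle
    _ ≤ ((Inv x.1 pos).card : ℕ∞) + ((Inv y.1 pos).card : ℕ∞) := by
        rw [SimpleGraph.edist_comm (u := z) (v := y)]
        exact add_le_add hxz hyz
    _ = _ := by push_cast; rfl

/-- a move changes the prefix relations at one place only -/
lemma move_relOff {m : ℕ} {l l' : List (Equiv.Perm (Fin (m + 1)))} (hl : IsTree l m)
    (h : HurwitzMove l l') : ∃ i, RelOff l l' i := by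
  obtain ⟨u, v, s, t, rfl, h | h⟩ := h
  · subst h
    exact ⟨u.length, relOff_of_pair (move_pack hl).1.1⟩
  · subst h
    exact ⟨u.length, relOff_of_pair (move_pack hl).2.1⟩

lemma relOff_symm {V : Type*} [DecidableEq V] {l l' : List (Equiv.Perm V)} {i : ℕ}
    (h : RelOff l l' i) : RelOff l' l i := fun j hj x y => (h j hj x y).symm

lemma inv_adj {m : ℕ} {pos : Fin (m + 1) → ℕ} (hpos : Function.Injective pos)
    {x y : RedWord (m + 1)} (h : (hurwitzGraph (m + 1)).Adj x y) :
    (Inv x.1 pos).card ≤ (Inv y.1 pos).card + 1 := by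
  rcases h.2 with h | h
  · obtain ⟨i, hi⟩ := move_relOff (redWord_isTree x) h
    exact inv_lipschitz (redWord_isTree y) (redWord_isTree x) (relOff_symm hi) hpos
  · obtain ⟨i, hi⟩ := move_relOff (redWord_isTree y) h
    exact inv_lipschitz (redWord_isTree y) (redWord_isTree x) hi hpos

lemma inv_walk {m : ℕ} {pos : Fin (m + 1) → ℕ} (hpos : Function.Injective pos)
    {x y : RedWord (m + 1)} (p : (hurwitzGraph (m + 1)).Walk x y) :
    (Inv x.1 pos).card ≤ (Inv y.1 pos).card + p.length := by
  induction p with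
  | nil => simp
  | cons h _ ih =>
    have := inv_adj hpos h
    rw [SimpleGraph.Walk.length_cons]
    omega

/-- the edge relation of a word -/
def ChordRel {m : ℕ} (l : List (Equiv.Perm (Fin (m + 1)))) (a b : Fin (m + 1)) : Prop :=
  a ≠ b ∧ swap a b ∈ l

lemma chordRel_symm {m : ℕ} (l : List (Equiv.Perm (Fin (m + 1)))) (a b : Fin (m + 1))
    (h : ChordRel l a b) : ChordRel l b a := ⟨h.1.symm, by rw [swap_comm]; exact h.2⟩

/-- the upper bound for every pair -/
lemma edist_upper {m : ℕ} (x y : RedWord (m + 1)) :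
    ∃ d : ℕ, (hurwitzGraph (m + 1)).edist x y ≤ d ∧
      (d : ℝ) ≤ (m.choose 2 : ℝ) + 112 * m * √((m + 1 : ℕ) : ℝ) := by
  classical
  have hx := redWord_isTree x
  have hy := redWord_isTree y
  let G : Fin (m + 1) → Fin (m + 1) → Prop := fun a b => ChordRel x.1 a b ∨ ChordRel y.1 a b
  have hGs : ∀ a b, G a b → G b a :=
    fun a b h => h.imp (chordRel_symm _ a b) (chordRel_symm _ a b)
  have h5 : ∀ 𝒞 : Finset (Finset (Fin (m + 1))), Covey G 𝒞 → 𝒞.card ≤ 4 := by
    intro 𝒞 h𝒞
    refine no_covey5 (Tx := ChordRel x.1) (Ty := ChordRel y.1) (chordRel_symm _)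
      (chordRel_symm _) ?_ ?_ 𝒞 h𝒞
    · intro a b c d hab hcd h1 h2 h3 h4
      exact noncrossing hx x.2.2.2 a b c d hab hcd h1 h2 h3 h4
    · intro a b c d hab hcd h1 h2 h3 h4
      exact noncrossing hy y.2.2.2 a b c d hab hcd h1 h2 h3 h4
  obtain ⟨l, hln, hls, hlb⟩ := exists_order hGs h5 (m + 1) univ (by simp)
  have hmem : ∀ v, v ∈ l := by
    intro v; rw [← List.mem_toFinset, hls]; exact mem_univ v
  have hlen : l.length = m + 1 := by
    rw [← List.toFinset_card_of_nodup hln, hls, card_univ, Fintype.card_fin]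
  let pos : Fin (m + 1) → ℕ := fun v => l.idxOf v
  have hpos : Function.Injective pos := by
    intro v w h
    exact (List.idxOf_inj (hmem v)).1 h
  have hposm : ∀ v, pos v ≤ m := by
    intro v
    have := List.idxOf_lt_length_iff.2 (hmem v)
    simp only [pos]
    omega
  have hposr : Function.Injective (fun v => m - pos v) := by
    intro v w h
    have h1 := hposm v
    have h2 := hposm w
    simp only at h
    exact hpos (by omega)
  have hSz : ∀ z ∈ range m, ((Sz G pos z).card : ℝ) ≤ 56 * √((m + 1 : ℕ) : ℝ) := by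
    intro z _
    refine le_trans ?_ (hlb (l.take (z + 1)) (l.drop (z + 1)) (List.take_append_drop _ _).symm)
    norm_cast
    apply card_le_card
    intro v hv
    rw [mem_Sz] at hv
    obtain ⟨hv1, w, hw, hvw⟩ := hv
    rw [mem_bdry]
    refine ⟨(List.mem_take_iff_idxOf_lt (hmem v)).2 (by simp only [pos] at hv1; omega), w, ?_, hvw⟩
    have hw2 : w ∉ l.take (z + 1) := by
      intro h
      have := (List.mem_take_iff_idxOf_lt (hmem w)).1 h
      simp only [pos] at hw
      omega
    have hw3 : w ∈ l.take (z + 1) ++ l.drop (z + 1) := by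
      rw [List.take_append_drop]; exact hmem w
    exact (List.mem_append.1 hw3).resolve_left hw2
  have hcard : Fintype.card (Fin (m + 1)) = m + 1 := by simp
  have ex := excess_bound hx hcard hpos hposm G
    (fun a b hab h => Or.inl ⟨hab, h⟩)
  have ey := excess_bound hy hcard hpos hposm G
    (fun a b hab h => Or.inr ⟨hab, h⟩)
  have d1 := edist_le hpos x y
  have d2 := edist_le hposr x y
  have hsum : ((∑ z ∈ range m, (Sz G pos z).card : ℕ) : ℝ) ≤ m * (56 * √((m + 1 : ℕ) : ℝ)) := by
    push_cast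
    refine (Finset.sum_le_sum hSz).trans ?_
    rw [Finset.sum_const, card_range, nsmul_eq_mul]
    push_cast
    exact le_rfl
  set S : ℕ := ∑ z ∈ range m, (Sz G pos z).card with hS
  have hfin : ∃ d : ℕ, (hurwitzGraph (m + 1)).edist x y ≤ d ∧ d ≤ m.choose 2 + 2 * S := by
    by_cases hc : (Inv x.1 pos).card + (Inv y.1 pos).card ≤ m.choose 2 + 2 * S
    · exact ⟨_, d1, hc⟩
    · exact ⟨_, d2, by omega⟩
  obtain ⟨d, hd1, hd2⟩ := hfin
  refine ⟨d, hd1, ?_⟩
  have hd3 : (d : ℝ) ≤ (m.choose 2 : ℝ) + 2 * (S : ℝ) := by exact_mod_cast hd2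
  linarith

/-- **Theorem.** For n ≥ 2 the Hurwitz graph G_T(n) is connected and
binom(n-1,2) ≤ diam G_T(n) ≤ binom(n-1,2) + 112 n^(3/2). -/
theorem result (n : ℕ) (hn : 2 ≤ n) :
    (hurwitzGraph n).Connected ∧
    (n - 1).choose 2 ≤ (hurwitzGraph n).diam ∧
    ((hurwitzGraph n).diam : ℝ) ≤ ((n - 1).choose 2 : ℝ) + 112 * (n : ℝ) * √(n : ℝ) := by
  obtain ⟨m, rfl⟩ : ∃ m, n = m + 1 := ⟨n - 1, by omega⟩
  rw [Nat.add_sub_cancel]
  have hne : Nonempty (RedWord (m + 1)) := by
    obtain ⟨w, h1, h2, h3⟩ := exists_word m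
    exact ⟨⟨w, by simpa using h1, fun t ht => by
      obtain ⟨a, b, hab, h⟩ := h2 t ht
      exact ⟨a, b, hab, h⟩, h3⟩⟩
  have hfin : Finite (RedWord (m + 1)) := by
    have : Finite {w : List (Equiv.Perm (Fin (m + 1))) // w.length = m + 1 - 1} :=
      inferInstanceAs (Finite (List.Vector (Equiv.Perm (Fin (m + 1))) (m + 1 - 1)))
    exact Finite.of_injective
      (fun w : RedWord (m + 1) => (⟨w.1, w.2.1⟩ :
        {w : List (Equiv.Perm (Fin (m + 1))) // w.length = m + 1 - 1}))
      (fun a b h => Subtype.ext (by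
        have h1 := congrArg (fun z : {w : List (Equiv.Perm (Fin (m + 1))) //
          w.length = m + 1 - 1} => z.1) h
        exact h1))
  have hconn : (hurwitzGraph (m + 1)).Connected := by
    rw [SimpleGraph.connected_iff]
    refine ⟨fun x y => ?_, hne⟩
    obtain ⟨d, hd, -⟩ := edist_upper x y
    rw [← SimpleGraph.edist_ne_top_iff_reachable]
    exact ne_top_of_le_ne_top (ENat.natCast_ne_top d) hd
  have hed : (hurwitzGraph (m + 1)).ediam ≠ ⊤ := by
    have := Fintype.ofFinite (RedWord (m + 1))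
    exact SimpleGraph.connected_iff_ediam_ne_top.1 hconn
  refine ⟨hconn, ?_, ?_⟩
  · -- lower bound
    obtain ⟨w⟩ := hne
    have hid : Function.Injective (fun v : Fin (m + 1) => (v : ℕ)) := Fin.val_injective
    obtain ⟨x, hx, -⟩ := route hid _ w rfl
    obtain ⟨y, hy, -⟩ := route (rpos_inj (m := m)) _ w rfl
    have h1 := many_inv (redWord_isTree y) hy
    obtain ⟨p, hp⟩ := hconn.exists_walk_length_eq_dist y x
    have h2 := inv_walk hid p
    rw [hx, card_empty, hp] at h2
    have h3 := SimpleGraph.dist_le_diam hed (u := y) (v := x)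
    omega
  · -- upper bound
    obtain ⟨u, v, huv⟩ := (hurwitzGraph (m + 1)).exists_dist_eq_diam
    obtain ⟨d, hd, hdR⟩ := edist_upper u v
    have h1 : (hurwitzGraph (m + 1)).dist u v ≤ d := by
      have h2 : ((hurwitzGraph (m + 1)).dist u v : ℕ∞) ≤ d := by
        rw [(hconn u v).coe_dist_eq_edist]
        exact hd
      exact_mod_cast h2
    rw [← huv]
    have h3 : ((hurwitzGraph (m + 1)).dist u v : ℝ) ≤ d := by exact_mod_cast h1
    have h4 : (0 : ℝ) ≤ √((m + 1 : ℕ) : ℝ) := Real.sqrt_nonneg _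
    have h5 : (112 : ℝ) * m * √((m + 1 : ℕ) : ℝ) ≤ 112 * ((m + 1 : ℕ) : ℝ) * √((m + 1 : ℕ) : ℝ) := by
      apply mul_le_mul_of_nonneg_right _ h4
      push_cast
      linarith
    linarith

end Pool.Agent.Results.MP_f4aefe_co.DiamAsymptotic
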